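import Pool.Agent.helper38.VA.Spec

set_option autoImplicit false

namespace Pool.Agent.VA

open Matrix Module Pool.Agent.PR Pool.Agent.H48SL

theorem DTH_st {n : ℕ} (s : SLZ n) (v : Fin n → ℚ) : stdM ℚ s *ᵥ (stdM ℚ s⁻¹ *ᵥ v) = v := by
  rw [Matrix.mulVec_mulVec, stdM_mul_inv, Matrix.one_mulVec]

theorem DTH_ts {n : ℕ} (s : SLZ n) (v : Fin n → ℚ) : stdM ℚ s⁻¹ *ᵥ (stdM ℚ s *ᵥ v) = v := by
  rw [Matrix.mulVec_mulVec, stdM_inv_mul, Matrix.one_mulVec]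

theorem DTH_cjv {n : ℕ} (s : SLZ n) (X : MQ n) (v : Fin n → ℚ) :
    cj s X *ᵥ v = stdM ℚ s *ᵥ (X *ᵥ (stdM ℚ s⁻¹ *ᵥ v)) := by
  rw [cj_apply, Matrix.mulVec_mulVec, Matrix.mulVec_mulVec]

theorem DTH_inj {n : ℕ} (s : SLZ n) : Function.Injective (cj s : MQ n →ₗ[ℚ] MQ n) := by
  intro X Y h
  have h2 : cj s⁻¹ (cj s X) = cj s⁻¹ (cj s Y) := by rw [h]
  rw [← cj_mul, ← cj_mul, inv_mul_cancel, cj_one] at h2
  exact h2

/-- conjugation as a ring homomorphism -/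
noncomputable def DTH_hom {n : ℕ} (s : SLZ n) : MQ n →+* MQ n where
  toFun := cj s
  map_one' := by rw [cj_apply, mul_one, stdM_mul_inv]
  map_mul' := cj_mul_apply s
  map_zero' := map_zero _
  map_add' := map_add _

theorem DTH_EX {n : ℕ} (H : Subgroup (SLZ n)) (s : SLZ n) (hs : s ∈ H) (X : MQ n) (hn : IsNilpotent X)
    (h : EX H X) : EX H (cj s X) := by
  obtain ⟨a, ha, hX⟩ := h
  refine ⟨s * a * s⁻¹, H.mul_mem (H.mul_mem hs ha) (H.inv_mem hs), ?_⟩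
  have h1 : cj s (IsNilpotent.exp X) = IsNilpotent.exp (cj s X) :=
    IsNilpotent.map_exp hn (DTH_hom s)
  rw [← h1, ← hX, cj_apply, stdM_mul, stdM_mul]

theorem DTH_DT {n : ℕ} (W : Submodule ℚ (MQ n)) (k φ : Fin n → ℚ) (s : SLZ n) (hsk : stdM ℚ s *ᵥ k = k)
    (h : DT W k φ) : DT (W.map (cj s)) k (φ ᵥ* stdM ℚ s⁻¹) := by
  have hsk' : stdM ℚ s⁻¹ *ᵥ k = k := by
    have h1 := DTH_ts s k
    rw [hsk] at h1
    exact h1
  have hd : ∀ v : Fin n → ℚ, (φ ᵥ* stdM ℚ s⁻¹) ⬝ᵥ v = φ ⬝ᵥ (stdM ℚ s⁻¹ *ᵥ v) := by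
    intro v
    rw [Matrix.dotProduct_mulVec]
  refine ⟨h.k0, ?_, ?_, ?_, ?_, ?_, ?_, ?_, ?_⟩
  · intro h0
    apply h.f0
    have h1 : (φ ᵥ* stdM ℚ s⁻¹) ᵥ* stdM ℚ s = φ := by
      rw [Matrix.vecMul_vecMul, stdM_inv_mul, Matrix.vecMul_one]
    rw [← h1, h0, Matrix.zero_vecMul]
  · rw [hd, hsk', h.fk]
  · have e := Submodule.equivMapOfInjective (cj s : MQ n →ₗ[ℚ] MQ n) (DTH_inj s) W
    rw [← LinearEquiv.finrank_eq e, h.dim]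
  · rintro Y hY
    obtain ⟨X, hX, rfl⟩ := Submodule.mem_map.1 hY
    rw [DTH_cjv, hsk', h.Xk X hX, Matrix.mulVec_zero]
  · rintro Y hY
    obtain ⟨X, hX, rfl⟩ := Submodule.mem_map.1 hY
    rw [cj_apply, Matrix.vecMul_vecMul, ← mul_assoc, ← mul_assoc, stdM_inv_mul, one_mul,
      ← Matrix.vecMul_vecMul, h.fX X hX, Matrix.zero_vecMul]
  · intro Y hY v hv
    obtain ⟨X, hX, rfl⟩ := Submodule.mem_map.1 hY
    rw [hd] at hv
    obtain ⟨c, hc⟩ := h.Xu X hX _ hv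
    refine ⟨c, ?_⟩
    rw [DTH_cjv, hc, Matrix.mulVec_smul, hsk]
  · intro v hv w hw
    rw [hd] at hv hw
    obtain ⟨X, hX, c, hc⟩ := h.sf _ hv _ hw
    refine ⟨cj s X, Submodule.mem_map.2 ⟨X, hX, rfl⟩, c, ?_⟩
    rw [DTH_cjv, hc, Matrix.mulVec_add, Matrix.mulVec_smul, hsk, DTH_st]
  · intro Y hY h0
    obtain ⟨X, hX, rfl⟩ := Submodule.mem_map.1 hY
    have hX0 : X ≠ 0 := by
      intro hx
      apply h0
      rw [hx, map_zero]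
    intro h1
    rw [← cj_mul_apply] at h1
    apply h.an X hX hX0
    apply DTH_inj s
    rw [h1, map_zero]

theorem DTH (hDGN : DGN_stmt) (hDRT : DRT_stmt) (hDSS : DSS_stmt) (hDPR : DPR_stmt) (hDND : DND_stmt) :
    DTH_stmt := by
  intro H hZ W b k φ hSI hDT
  have hg := hDGN 4 H hZ W k φ hDT
  have hm := hDRT 4 H W b k φ hSI hDT hg
  obtain ⟨s, hs, hsk, hsf⟩ := hDSS 4 H W k φ hSI.com hSI.log hDT hm
  have hDT' := DTH_DT W k φ s hsk hDT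
  have hnil' : ∀ Y ∈ W.map (cj s), IsNilpotent Y := by
    intro Y hY
    obtain ⟨X, hX, rfl⟩ := Submodule.mem_map.1 hY
    exact (hSI.nil X hX).map (DTH_hom s)
  have hlog' : ∀ Y ∈ W.map (cj s), ∃ j : ℕ, 0 < j ∧ EX H ((j : ℚ) • Y) := by
    intro Y hY
    obtain ⟨X, hX, rfl⟩ := Submodule.mem_map.1 hY
    obtain ⟨j, hj, hE⟩ := hSI.log X hX
    refine ⟨j, hj, ?_⟩
    have h1 := DTH_EX H s hs _ (hSI.nil _ (W.smul_mem (j : ℚ) hX)) hE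
    rw [map_smul] at h1
    exact h1
  have hcom' : ∀ Y ∈ W.map (cj s), ∀ Z ∈ W.map (cj s), Y * Z = Z * Y := by
    intro Y hY Z hZ'
    obtain ⟨X, hX, rfl⟩ := Submodule.mem_map.1 hY
    obtain ⟨U, hU, rfl⟩ := Submodule.mem_map.1 hZ'
    rw [← cj_mul_apply, ← cj_mul_apply, hSI.com X hX U hU]
  have hne : ∀ c : ℚ, φ ᵥ* stdM ℚ s⁻¹ ≠ c • φ := by
    intro c hc
    have h1 : φ = c • (φ ᵥ* stdM ℚ s) := by
      have h2 : (φ ᵥ* stdM ℚ s⁻¹) ᵥ* stdM ℚ s = φ := by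
        rw [Matrix.vecMul_vecMul, stdM_inv_mul, Matrix.vecMul_one]
      rw [hc, Matrix.smul_vecMul] at h2
      exact h2.symm
    have hc0 : c ≠ 0 := by
      intro h0
      apply hDT.f0
      rw [h1, h0, zero_smul]
    apply hsf c⁻¹
    calc φ ᵥ* stdM ℚ s = c⁻¹ • (c • (φ ᵥ* stdM ℚ s)) := by rw [smul_smul, inv_mul_cancel₀ hc0, one_smul]
      _ = c⁻¹ • φ := by rw [← h1]
  have hP := hDPR 4 (le_refl 4) H W (W.map (cj s)) k φ (φ ᵥ* stdM ℚ s⁻¹) hDT hDT' hSI.nil hnil' hSI.log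
    hlog' hne
  exact hDND 4 (by norm_num) (le_refl 4) H hZ W (W.map (cj s)) k φ (φ ᵥ* stdM ℚ s⁻¹) hDT hDT' hcom' hP

end Pool.Agent.VA
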